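import Pool.Agent.MP_c69980_ag.J2.Brody

set_option autoImplicit false

open Pool.Agent.MP_c69980_ag.H60 Pool.Agent.MP_c69980_ag.H43 Pool.Agent.MP_c69980_ag.H4

/-- Let `U` be a surface of log-general type (condition 4) that is the complement of a hypersurface
section `G = 0` in its projective closure (`G = 1`: `U` is projective; `deg G > 0`: `U` is affine).
If all entire curves in `U` lie in a proper closed subset (condition 2), then conditions 1, 3 and 5
hold for `U`. -/
theorem Pool.Agent.Results.MP_c69980_ag.BrodySurface.result (n : ℕ) (U : Set (PS n))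
    (hU : IsVar U) (G : MvPolynomial (Fin n) ℂ) (d : ℕ) (hG : G.IsHomogeneous d)
    (hUG : U = {P ∈ zcl U | MvPolynomial.eval P.rep G ≠ 0})
    (K : Type) [Field K] [Algebra ℂ K] (z : Fin n → K) (hz : GenPt U z)
    (h2 : Algebra.trdeg ℂ K = 2) (h4 : LogGT U z) (hB : PseudoBrody U) :
    PseudoKob U ∧ PseudoFin U ∧ PseudoBdd U :=
  Pool.Agent.MP_c69980_ag.J2.all_of_brody hU hG hUG hz h2 h4 hB
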