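import Pool.Agent.MP_c69980_ag.J1.Top

set_option autoImplicit false

open Pool.Agent.MP_c69980_ag.H60 Pool.Agent.MP_c69980_ag.H43 Pool.Agent.MP_c69980_ag.H4

/-- Let `G` be a semi-abelian variety, embedded in projective space by the functions `Th w ϑ` on its
universal cover. Let `U` be a quasi-projective surface of log-general type (condition 4), with
function field `K` and generic point `z`, and let `u` be the homogeneous coordinates of a
nonconstant morphism from `U` to `G` (`hu`: the point `u` lies on the closure of `G`; `hr`: the map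
is regular at each point of `U` with value in `G`; `hc`: it is not constant). Then conditions
1, 2, 3 and 5 hold for `U`. -/
theorem Pool.Agent.Results.MP_c69980_ag.IrregularSurface.result (t a M n : ℕ)
    (w : Fin M → Option (Fin t)) (ϑ : (Fin a → ℂ) → Fin M → ℂ) (hG : SemiAb w ϑ)
    (U : Set (PS n)) (hU : IsVar U) (K : Type) [Field K] [Algebra ℂ K] (z : Fin n → K)
    (hz : GenPt U z) (h2 : Algebra.trdeg ℂ K = 2) (h4 : LogGT U z) (u : Fin M → K)
    (hu : ∀ (F : MvPolynomial (Fin M) ℂ) (d : ℕ), F.IsHomogeneous d →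
      (∀ s α, MvPolynomial.eval (Th w ϑ s α) F = 0) → MvPolynomial.aeval u F = 0)
    (hr : ∀ x ∈ U, ∀ o, ∃ b, w b = o ∧ u b ≠ 0 ∧ ∀ c, u c / u b ∈ locRing z x)
    (hc : ∃ c b, ∀ s : ℂ, u c / u b ≠ algebraMap ℂ K s) :
    PseudoKob U ∧ PseudoBrody U ∧ PseudoFin U ∧ PseudoBdd U :=
  Pool.Agent.MP_c69980_ag.J1.all hG hU hz h2 h4 hu hr hc
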