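import Pool.Agent.MP_c69980_ag.H43.MainB

set_option autoImplicit false

open Pool.Agent.MP_c69980_ag.H60 Pool.Agent.MP_c69980_ag.H43 Pool.Agent.MP_c69980_ag.H4

/-- Let `G` be a semi-abelian variety, embedded in projective space by the functions `Th w ϑ` on its
universal cover. Let `U` be a quasi-projective variety with function field `K` and generic point
`z`, and let `u` be the homogeneous coordinates of a morphism from `U` to `G` (`hu`: the point `u`
lies on the closure of `G`; `hr`: the map is regular at each point of `U` with value in `G`) that is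
generically finite onto its image (`hf`). `hS` is the resolution and compactification that the
definition of log-general type refers to. Then the five conditions are equivalent. -/
theorem Pool.Agent.Results.MP_c69980_ag.MaxAlbanese.result (t a M n : ℕ)
    (w : Fin M → Option (Fin t)) (ϑ : (Fin a → ℂ) → Fin M → ℂ) (hG : SemiAb w ϑ)
    (U : Set (PS n)) (hU : IsVar U) (K : Type) [Field K] [Algebra ℂ K] (z : Fin n → K)
    (hz : GenPt U z) (u : Fin M → K)
    (hu : ∀ (F : MvPolynomial (Fin M) ℂ) (d : ℕ), F.IsHomogeneous d →
      (∀ s α, MvPolynomial.eval (Th w ϑ s α) F = 0) → MvPolynomial.aeval u F = 0)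
    (hr : ∀ x ∈ U, ∀ o, ∃ b, w b = o ∧ u b ≠ 0 ∧ ∀ c, u c / u b ∈ locRing z x)
    (hf : Algebra.IsAlgebraic (IntermediateField.adjoin ℂ {x | ∃ c b, x = u c / u b}) K)
    (hS : Snc U z) :
    List.TFAE [PseudoKob U, PseudoBrody U, PseudoFin U, LogGT U z, PseudoBdd U] :=
  tfae hG ⟨hU, hz, fun F d a b => hu F d a fun s α => by
    simpa [TH] using b (Fin.append s α), hr, hf⟩ hS
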